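import Pool.Agent.MP_ae50c7_an.Main

/-!
The set of conformal diameters of solutions of the Liouville equation on the plane is `[π, ∞]`.
-/

set_option autoImplicit false

namespace Pool.Agent.Results.MP_ae50c7_an.Spectrum

open Pool.Agent.MP_ae50c7_an

theorem result :
    {D : ENNReal | ∃ u : ℂ → ℝ, IsSolution u ∧ cdiam (fun z => Real.exp (u z)) = D} =
      Set.Ici (ENNReal.ofReal Real.pi) := by
  ext D
  constructor
  · rintro ⟨u, hu, rfl⟩
    exact le_cdiam fun r hr => ⟨0, ecc_lower hu 0 hr⟩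
  · intro hD
    suffices ∃ g, Loc g ∧ cdiam (rho g) = D by
      obtain ⟨g, hg, h⟩ := this
      exact ⟨_, hg.isSolution, by rw [hg.exp_log, h]⟩
    by_cases htop : D = ⊤
    · exact htop ▸ diam_infinite
    have h1 : Real.pi ≤ D.toReal := (ENNReal.ofReal_le_iff_le_toReal htop).mp hD
    rcases lt_or_ge D.toReal (2 * Real.pi) with h2 | h2
    · obtain ⟨g, hg, h⟩ := diam_small h1 h2
      exact ⟨g, hg, by rw [h.cdiam_eq, ENNReal.ofReal_toReal htop]⟩
    · obtain ⟨g, hg, h⟩ := diam_large h2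
      exact ⟨g, hg, by rw [h.cdiam_eq, ENNReal.ofReal_toReal htop]⟩

end Pool.Agent.Results.MP_ae50c7_an.Spectrum
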